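import Mathlib
import Pool.Agent.Helper40.Nil.Stmts2

/-! Project Nil, module NCK: the noncommutative Khintchine inequality in operator norm (existence of
signs), deduced from the moment inequality NCKM. -/

namespace Pool.Agent.Helper40.Nil

open Matrix
open scoped ComplexConjugate InnerProductSpace ComplexOrder

set_option linter.unusedVariables false

noncomputable section

/-- matrices as operators -/
abbrev nck_T (k : ℕ) : Matrix (Fin k) (Fin k) ℂ ≃⋆ₐ[ℂ] MkC k :=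
  Matrix.toEuclideanCLM (n := Fin k) (𝕜 := ℂ)

lemma nck_trace (k : ℕ) (R : Matrix (Fin k) (Fin k) ℂ) :
    (Rᴴ * R).trace.re = ∑ i, ∑ j, ‖R i j‖ ^ 2 := by
  rw [Matrix.trace, Complex.re_sum, Finset.sum_comm]
  apply Finset.sum_congr rfl
  intro i _
  rw [Matrix.diag_apply, Matrix.mul_apply, Complex.re_sum]
  apply Finset.sum_congr rfl
  intro j _
  rw [Matrix.conjTranspose_apply, Complex.star_def, Complex.conj_mul']
  rw [← Complex.ofReal_pow, Complex.ofReal_re]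

lemma nck_frob (k : ℕ) (R : Matrix (Fin k) (Fin k) ℂ) :
    ‖nck_T k R‖ ^ 2 ≤ (Rᴴ * R).trace.re := by
  have h0 : 0 ≤ (Rᴴ * R).trace.re := by
    rw [nck_trace]
    positivity
  have hb : ‖nck_T k R‖ ≤ Real.sqrt ((Rᴴ * R).trace.re) := by
    refine ContinuousLinearMap.opNorm_le_bound _ (Real.sqrt_nonneg _) ?_
    intro v
    rw [← Real.sqrt_sq (norm_nonneg v), ← Real.sqrt_mul h0]
    apply Real.le_sqrt_of_sq_le
    rw [EuclideanSpace.norm_sq_eq, EuclideanSpace.norm_sq_eq, nck_trace, Finset.sum_mul]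
    apply Finset.sum_le_sum
    intro i _
    have e1 : (nck_T k R v).ofLp i = ∑ j, R i j * v.ofLp j := by
      rw [Matrix.ofLp_toEuclideanCLM]
      rfl
    rw [e1]
    have h1 : ‖∑ j, R i j * v.ofLp j‖ ≤ ∑ j, ‖R i j‖ * ‖v.ofLp j‖ := by
      refine (norm_sum_le _ _).trans (le_of_eq ?_)
      exact Finset.sum_congr rfl (fun j _ => norm_mul _ _)
    calc ‖∑ j, R i j * v.ofLp j‖ ^ 2 ≤ (∑ j, ‖R i j‖ * ‖v.ofLp j‖) ^ 2 :=
          pow_le_pow_left₀ (norm_nonneg _) h1 2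
      _ ≤ (∑ j, ‖R i j‖ ^ 2) * ∑ j, ‖v.ofLp j‖ ^ 2 :=
          Finset.sum_mul_sq_le_sq_mul_sq _ _ _
  calc ‖nck_T k R‖ ^ 2 ≤ (Real.sqrt ((Rᴴ * R).trace.re)) ^ 2 :=
        pow_le_pow_left₀ (norm_nonneg _) hb 2
    _ = (Rᴴ * R).trace.re := Real.sq_sqrt h0

lemma nck_pow (k r : ℕ) (S : Matrix (Fin k) (Fin k) ℂ) (hS : S.IsHermitian) :
    (‖nck_T k S‖ ^ 2) ^ 2 ^ r ≤ (S ^ (2 * 2 ^ r)).trace.re := by
  have hs : IsSelfAdjoint (nck_T k S) := by
    have h1 : star S = S := hS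
    rw [IsSelfAdjoint, ← map_star, h1]
  have h1 := IsSelfAdjoint.norm_pow_two_pow (E := MkC k) hs r
  have h2 := nck_frob k (S ^ 2 ^ r)
  have h3 : (S ^ 2 ^ r)ᴴ = S ^ 2 ^ r := by
    rw [Matrix.conjTranspose_pow, hS.eq]
  rw [h3, ← pow_add, map_pow, h1] at h2
  rw [← pow_mul, mul_comm 2 (2 ^ r), pow_mul]
  rw [show 2 ^ r * 2 = 2 ^ r + 2 ^ r by ring]
  exact h2

lemma nck_psd (k : ℕ) (X : Matrix (Fin k) (Fin k) ℂ) (hX : X.IsHermitian)
    (hn : ‖nck_T k X‖ ≤ 1) : ((1 : Matrix (Fin k) (Fin k) ℂ) - X * X).PosSemidef := by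
  have hs : IsSelfAdjoint (nck_T k X) := by
    have h1 : star X = X := hX
    rw [IsSelfAdjoint, ← map_star, h1]
  rw [← Matrix.isPositive_toEuclideanLin_iff]
  constructor
  · rw [Matrix.isSymmetric_toEuclideanLin_iff]
    refine Matrix.isHermitian_one.sub ?_
    rw [Matrix.IsHermitian, Matrix.conjTranspose_mul, hX.eq]
  · intro x
    have e1 : (Matrix.toEuclideanLin (1 - X * X)) x = x - nck_T k X (nck_T k X x) := by
      have e2 : (Matrix.toEuclideanLin (1 - X * X)) x = nck_T k (1 - X * X) x := rfl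
      rw [e2, map_sub, map_one, map_mul]
      rfl
    rw [e1, inner_sub_left, map_sub]
    have e3 : ⟪nck_T k X (nck_T k X x), x⟫_ℂ = ⟪nck_T k X x, nck_T k X x⟫_ℂ := by
      have h4 := ContinuousLinearMap.adjoint_inner_left (nck_T k X) x (nck_T k X x)
      have h5 : ContinuousLinearMap.adjoint (nck_T k X) = nck_T k X := hs
      rw [h5] at h4
      exact h4
    rw [e3, inner_self_eq_norm_sq, inner_self_eq_norm_sq]
    have h6 : ‖nck_T k X x‖ ≤ ‖x‖ := by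
      calc ‖nck_T k X x‖ ≤ ‖nck_T k X‖ * ‖x‖ := ContinuousLinearMap.le_opNorm _ _
        _ ≤ 1 * ‖x‖ := mul_le_mul_of_nonneg_right hn (norm_nonneg _)
        _ = ‖x‖ := one_mul _
    have h7 := pow_le_pow_left₀ (norm_nonneg _) h6 2
    linarith

/-- real part -/
def nck_re {k : ℕ} (A : Matrix (Fin k) (Fin k) ℂ) : Matrix (Fin k) (Fin k) ℂ :=
  (1 / 2 : ℂ) • (A + Aᴴ)

/-- imaginary part -/
def nck_im {k : ℕ} (A : Matrix (Fin k) (Fin k) ℂ) : Matrix (Fin k) (Fin k) ℂ :=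
  (-Complex.I / 2 : ℂ) • (A - Aᴴ)

lemma nck_re_herm {k : ℕ} (A : Matrix (Fin k) (Fin k) ℂ) : (nck_re A).IsHermitian := by
  unfold nck_re
  rw [Matrix.IsHermitian, Matrix.conjTranspose_smul, Matrix.conjTranspose_add,
    Matrix.conjTranspose_conjTranspose, add_comm Aᴴ A]
  simp

lemma nck_im_herm {k : ℕ} (A : Matrix (Fin k) (Fin k) ℂ) : (nck_im A).IsHermitian := by
  unfold nck_im
  rw [Matrix.IsHermitian, Matrix.conjTranspose_smul, Matrix.conjTranspose_sub,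
    Matrix.conjTranspose_conjTranspose]
  have e : star (-Complex.I / 2 : ℂ) = Complex.I / 2 := by
    simp
  rw [e, ← neg_sub A Aᴴ, smul_neg, ← neg_smul]
  ring_nf

lemma nck_re_add_im {k : ℕ} (A : Matrix (Fin k) (Fin k) ℂ) :
    nck_re A + Complex.I • nck_im A = A := by
  unfold nck_re nck_im
  rw [smul_smul]
  have e : Complex.I * (-Complex.I / 2) = 1 / 2 := by
    have := Complex.I_mul_I
    linear_combination (-1 / 2 : ℂ) * this
  rw [e, ← smul_add]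
  have : A + Aᴴ + (A - Aᴴ) = (2 : ℂ) • A := by
    rw [two_smul]; abel
  rw [this, smul_smul]
  norm_num

lemma nck_norm_conj {k : ℕ} (A : Matrix (Fin k) (Fin k) ℂ) : ‖nck_T k Aᴴ‖ = ‖nck_T k A‖ := by
  have : nck_T k Aᴴ = star (nck_T k A) := by
    rw [← map_star]; rfl
  rw [this]
  exact norm_star (E := MkC k) _

lemma nck_re_norm {k : ℕ} (A : Matrix (Fin k) (Fin k) ℂ) (h : ‖nck_T k A‖ ≤ 1) :
    ‖nck_T k (nck_re A)‖ ≤ 1 := by
  unfold nck_re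
  rw [map_smul, map_add]
  calc ‖(1 / 2 : ℂ) • (nck_T k A + nck_T k Aᴴ)‖ = 1 / 2 * ‖nck_T k A + nck_T k Aᴴ‖ := by
        rw [norm_smul]; norm_num
    _ ≤ 1 / 2 * (‖nck_T k A‖ + ‖nck_T k Aᴴ‖) := by
        apply mul_le_mul_of_nonneg_left (norm_add_le _ _) (by norm_num)
    _ ≤ 1 := by rw [nck_norm_conj]; linarith

lemma nck_im_norm {k : ℕ} (A : Matrix (Fin k) (Fin k) ℂ) (h : ‖nck_T k A‖ ≤ 1) :
    ‖nck_T k (nck_im A)‖ ≤ 1 := by
  unfold nck_im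
  rw [map_smul, map_sub]
  calc ‖(-Complex.I / 2 : ℂ) • (nck_T k A - nck_T k Aᴴ)‖ = 1 / 2 * ‖nck_T k A - nck_T k Aᴴ‖ := by
        rw [norm_smul]; norm_num
    _ ≤ 1 / 2 * (‖nck_T k A‖ + ‖nck_T k Aᴴ‖) := by
        apply mul_le_mul_of_nonneg_left (norm_sub_le _ _) (by norm_num)
    _ ≤ 1 := by rw [nck_norm_conj]; linarith

/-- a power of two between `L` and `2 L` -/
lemma nck_pow_two (L : ℝ) (hL : 1 ≤ L) : ∃ r : ℕ, L ≤ 2 ^ r ∧ (2 : ℝ) ^ r ≤ 2 * L := by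
  obtain ⟨n, hn1, hn2⟩ := exists_nat_pow_near hL (by norm_num : (1 : ℝ) < 2)
  refine ⟨n + 1, hn2.le, ?_⟩
  rw [pow_succ]
  linarith

lemma nck_exp (k : ℕ) (hk : 1 ≤ k) (p : ℕ) (hp : 1 + Real.log k ≤ p) :
    2 * (k : ℝ) ≤ Real.exp 1 ^ p := by
  have hk0 : (0 : ℝ) < k := by exact_mod_cast hk
  rw [← Real.exp_nat_mul, mul_one]
  calc 2 * (k : ℝ) ≤ Real.exp 1 * Real.exp (Real.log k) := by
        rw [Real.exp_log hk0]
        have := Real.add_one_le_exp (1 : ℝ)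
        nlinarith
    _ = Real.exp (1 + Real.log k) := by rw [Real.exp_add]
    _ ≤ Real.exp p := Real.exp_le_exp.mpr hp

lemma nck_exp_lt : Real.exp 1 ≤ 4 := by
  have := Real.exp_one_lt_d9
  linarith

/-- sign sums -/
def nck_S {k m : ℕ} (X : Fin m → Matrix (Fin k) (Fin k) ℂ) (e : Fin m → Bool) :
    Matrix (Fin k) (Fin k) ℂ := ∑ j, (if e j then (1 : ℂ) else -1) • X j

lemma nck_S_herm {k m : ℕ} (X : Fin m → Matrix (Fin k) (Fin k) ℂ) (hX : ∀ j, (X j).IsHermitian)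
    (e : Fin m → Bool) : (nck_S X e).IsHermitian := by
  unfold nck_S
  rw [Matrix.IsHermitian, Matrix.conjTranspose_sum]
  apply Finset.sum_congr rfl
  intro j _
  rw [Matrix.conjTranspose_smul, (hX j).eq]
  split_ifs <;> simp

lemma nck_tr_nonneg {k : ℕ} (r : ℕ) (S : Matrix (Fin k) (Fin k) ℂ) (hS : S.IsHermitian) :
    0 ≤ (S ^ (2 * 2 ^ r)).trace.re :=
  le_trans (by positivity) (nck_pow k r S hS)

lemma nck_bound (k m : ℕ) (hk : 1 ≤ k) (r : ℕ) (hr : 1 + Real.log k ≤ (2 : ℝ) ^ r)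
    (hr2 : (2 : ℝ) ^ r ≤ 2 * (1 + Real.log k)) (S : Matrix (Fin k) (Fin k) ℂ) (hS : S.IsHermitian)
    (ht : (S ^ (2 * 2 ^ r)).trace.re ≤ 2 * (((2 * 2 ^ r * m : ℕ) : ℝ) ^ 2 ^ r * k)) :
    ‖nck_T k S‖ ≤ 4 * Real.sqrt (m * (1 + Real.log k)) := by
  have hk0 : (1 : ℝ) ≤ k := by exact_mod_cast hk
  have hl : 0 ≤ Real.log k := Real.log_nonneg hk0
  have h1 := nck_pow k r S hS
  have h2 : (2 : ℝ) * k ≤ Real.exp 1 ^ 2 ^ r := by
    apply nck_exp k hk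
    push_cast
    exact hr
  have h3 : (‖nck_T k S‖ ^ 2) ^ 2 ^ r ≤ (Real.exp 1 * ((2 * 2 ^ r * m : ℕ) : ℝ)) ^ 2 ^ r := by
    calc (‖nck_T k S‖ ^ 2) ^ 2 ^ r ≤ 2 * (((2 * 2 ^ r * m : ℕ) : ℝ) ^ 2 ^ r * k) := h1.trans ht
      _ = ((2 * 2 ^ r * m : ℕ) : ℝ) ^ 2 ^ r * (2 * k) := by ring
      _ ≤ ((2 * 2 ^ r * m : ℕ) : ℝ) ^ 2 ^ r * Real.exp 1 ^ 2 ^ r :=
          mul_le_mul_of_nonneg_left h2 (by positivity)
      _ = (Real.exp 1 * ((2 * 2 ^ r * m : ℕ) : ℝ)) ^ 2 ^ r := by rw [mul_pow]; ring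
  have h4 : ‖nck_T k S‖ ^ 2 ≤ Real.exp 1 * ((2 * 2 ^ r * m : ℕ) : ℝ) :=
    le_of_pow_le_pow_left₀ (by positivity) (by positivity) h3
  have h5 : ‖nck_T k S‖ ^ 2 ≤ 16 * (m * (1 + Real.log k)) := by
    push_cast at h4
    have he := nck_exp_lt
    have he0 := Real.exp_pos 1
    have hm : (0 : ℝ) ≤ m := Nat.cast_nonneg m
    calc ‖nck_T k S‖ ^ 2 ≤ Real.exp 1 * (2 * 2 ^ r * m) := h4
      _ ≤ 4 * (2 * 2 ^ r * m) := mul_le_mul_of_nonneg_right he (by positivity)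
      _ = 8 * m * 2 ^ r := by ring
      _ ≤ 8 * m * (2 * (1 + Real.log k)) := mul_le_mul_of_nonneg_left hr2 (by positivity)
      _ = 16 * (m * (1 + Real.log k)) := by ring
  have h6 : ‖nck_T k S‖ ≤ Real.sqrt (16 * (m * (1 + Real.log k))) := Real.le_sqrt_of_sq_le h5
  rw [Real.sqrt_mul (by norm_num : (0 : ℝ) ≤ 16)] at h6
  have h7 : Real.sqrt 16 = 4 := by
    rw [show (16 : ℝ) = 4 ^ 2 by norm_num]
    exact Real.sqrt_sq (by norm_num)
  rwa [h7] at h6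

theorem st_NCK (hM : ST_NCKM) : ST_NCK := by
  refine ⟨8, by norm_num, ?_⟩
  intro k m hk B hB
  have hk0 : (1 : ℝ) ≤ k := by exact_mod_cast hk
  have hl : 0 ≤ Real.log k := Real.log_nonneg hk0
  obtain ⟨r, hr, hr2⟩ := nck_pow_two (1 + Real.log k) (by linarith)
  let A : Fin m → Matrix (Fin k) (Fin k) ℂ := fun j => (nck_T k).symm (B j)
  have hA : ∀ j, nck_T k (A j) = B j := fun j => (nck_T k).apply_symm_apply (B j)
  have hAn : ∀ j, ‖nck_T k (A j)‖ ≤ 1 := fun j => by rw [hA]; exact hB j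
  let X : Fin m → Matrix (Fin k) (Fin k) ℂ := fun j => nck_re (A j)
  let Y : Fin m → Matrix (Fin k) (Fin k) ℂ := fun j => nck_im (A j)
  have hX : ∀ j, (X j).IsHermitian := fun j => nck_re_herm _
  have hY : ∀ j, (Y j).IsHermitian := fun j => nck_im_herm _
  have hX1 := hM k m (2 ^ r) X hX (fun j => nck_psd k (X j) (hX j) (nck_re_norm _ (hAn j)))
  have hY1 := hM k m (2 ^ r) Y hY (fun j => nck_psd k (Y j) (hY j) (nck_im_norm _ (hAn j)))
  have hsum : ∑ e : Fin m → Bool, (((nck_S X e) ^ (2 * 2 ^ r)).trace.re +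
      ((nck_S Y e) ^ (2 * 2 ^ r)).trace.re) ≤
      ∑ e : Fin m → Bool, 2 * (((2 * 2 ^ r * m : ℕ) : ℝ) ^ 2 ^ r * k) := by
    rw [Finset.sum_add_distrib, Finset.sum_const, Finset.card_univ, Fintype.card_fun,
      Fintype.card_bool, Fintype.card_fin, nsmul_eq_mul]
    rw [Complex.re_sum] at hX1 hY1
    have e1 : ∑ e : Fin m → Bool, ((nck_S X e) ^ (2 * 2 ^ r)).trace.re ≤
      (2 : ℝ) ^ m * ((2 * 2 ^ r * m : ℕ) : ℝ) ^ 2 ^ r * k := hX1
    have e2 : ∑ e : Fin m → Bool, ((nck_S Y e) ^ (2 * 2 ^ r)).trace.re ≤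
      (2 : ℝ) ^ m * ((2 * 2 ^ r * m : ℕ) : ℝ) ^ 2 ^ r * k := hY1
    calc _ ≤ (2 : ℝ) ^ m * ((2 * 2 ^ r * m : ℕ) : ℝ) ^ 2 ^ r * k +
        (2 : ℝ) ^ m * ((2 * 2 ^ r * m : ℕ) : ℝ) ^ 2 ^ r * k := add_le_add e1 e2
      _ = ((2 ^ m : ℕ) : ℝ) * (2 * (((2 * 2 ^ r * m : ℕ) : ℝ) ^ 2 ^ r * k)) := by
        push_cast
        ring
  obtain ⟨e, _, he⟩ := Finset.exists_le_of_sum_le Finset.univ_nonempty hsum
  have hXe := nck_S_herm X hX e
  have hYe := nck_S_herm Y hY e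
  have hX0 := nck_tr_nonneg r _ hXe
  have hY0 := nck_tr_nonneg r _ hYe
  have bX := nck_bound k m hk r hr hr2 (nck_S X e) hXe (by linarith)
  have bY := nck_bound k m hk r hr hr2 (nck_S Y e) hYe (by linarith)
  refine ⟨fun j => if e j then 1 else -1, ?_, ?_⟩
  · intro j
    by_cases h : e j = true
    · left; simp [h]
    · right; simp [h]
  · have hS : ∑ j, (((if e j then (1 : ℝ) else -1 : ℝ)) : ℂ) • B j =
        nck_T k (nck_S X e) + Complex.I • nck_T k (nck_S Y e) := by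
      rw [← map_smul, ← map_add]
      have h1 : nck_S X e + Complex.I • nck_S Y e = ∑ j, (if e j then (1 : ℂ) else -1) • A j := by
        unfold nck_S
        rw [Finset.smul_sum, ← Finset.sum_add_distrib]
        apply Finset.sum_congr rfl
        intro j _
        rw [smul_comm Complex.I, ← smul_add]
        rw [show X j + Complex.I • Y j = A j from nck_re_add_im (A j)]
      rw [h1, map_sum]
      apply Finset.sum_congr rfl
      intro j _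
      rw [map_smul, hA]
      split_ifs <;> simp
    rw [hS]
    calc ‖nck_T k (nck_S X e) + Complex.I • nck_T k (nck_S Y e)‖
        ≤ ‖nck_T k (nck_S X e)‖ + ‖Complex.I • nck_T k (nck_S Y e)‖ := norm_add_le _ _
      _ = ‖nck_T k (nck_S X e)‖ + ‖nck_T k (nck_S Y e)‖ := by
          rw [norm_smul, Complex.norm_I, one_mul]
      _ ≤ 8 * Real.sqrt (m * (1 + Real.log k)) := by linarith

end

end Pool.Agent.Helper40.Nil
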